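import Pool.Agent.H13.LN.Targets

/-!
# LN board, FGL: conjugation, stabilization and kinks of singular words
-/

set_option autoImplicit false

open Finset Pool.Agent.H59.LIN Pool.Agent.H13.LN

namespace Pool.Agent.H60.LNT

theorem run_append {n : ℕ} {α : Type} (u v : List (Fin n × α)) (p : Fin (n + 1)) :
    run (u ++ v) p = run v (run u p) := by
  induction u generalizing p with
  | nil => rfl
  | cons x u ih =>
    rw [List.cons_append]
    show run (u ++ v) (tr x.1 p) = run v (run u (tr x.1 p))
    exact ih _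

theorem knot_of_run {n : ℕ} {α β : Type} {u : List (Fin n × α)} {v : List (Fin n × β)}
    (h : ∀ p, run v p = run u p) (hu : Knot u) : Knot v := by
  have h' : run v = run u := funext h
  intro p
  obtain ⟨k, hk⟩ := hu p
  exact ⟨k, by rw [h', hk]⟩

theorem fgl (hEXA : T_EXA) : T_FGL := by
  obtain ⟨e1, e2, e3, e4, e5, e6, -⟩ := hEXA
  intro B _ v hv n u w hk
  -- stabilization
  have hstab : ∀ b : Bool, ext (fun r => v (n + 1) (up r ++ [(Fin.last n, b)])) [] (u ++ w) =
      ext (v n) [] (u ++ w) := by
    intro b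
    refine e3 B n _ _ _ _ fun r hr => ?_
    have hr' : ∀ p, run r p = run (u ++ w) p := hr
    exact (hv ⟨n, r⟩ ⟨n + 1, up r ++ [(Fin.last n, b)]⟩ (Mv.stab n r b)
      (knot_of_run hr' hk)).symm
  have hone : ∀ (F : Wd (n + 1) → B) (b : Bool),
      ext (fun r => F (r ++ [(Fin.last n, b)])) []
        ((u ++ w).map (fun x => (x.1.castSucc, x.2))) =
      ext (fun r => F (up r ++ [(Fin.last n, b)])) [] (u ++ w) := by
    intro F b
    exact e4 B n (fun r => F (r ++ [(Fin.last n, b)])) [] (u ++ w)
  refine ⟨?_, ?_, ?_⟩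
  · have f1 : ∀ a c : SWd n, ext (v n) [] (a ++ c) =
        ext (fun r => ext (fun s => v n (r ++ s)) [] c) [] a := by
      intro a c
      rw [e1 B n (v n) [] a c]
      congr 1
      funext r
      have := e2 B n (v n) r [] c
      rw [List.append_nil] at this
      exact this
    rw [f1 u w, f1 w u, e5 B n (fun r s => v n (r ++ s)) [] [] u w]
    refine e3 B n _ _ _ _ fun s hs => ?_
    refine e3 B n _ _ _ _ fun r hr => ?_
    have hs' : ∀ p, run s p = run w p := hs
    have hr' : ∀ p, run r p = run u p := hr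
    refine hv ⟨n, r ++ s⟩ ⟨n, s ++ r⟩ (Mv.conj n r s) (knot_of_run (u := u ++ w) ?_ hk)
    intro p
    rw [run_append, run_append, hr', hs']
  · intro b
    rw [e1 B (n + 1) (v (n + 1)) [] _ _]
    exact (hone (v (n + 1)) b).trans (hstab b)
  · rw [e1 B (n + 1) (v (n + 1)) [] _ _]
    have f2 : (fun r => ext (v (n + 1)) r [(Fin.last n, (none : Option Bool))]) =
        fun r => v (n + 1) (r ++ [(Fin.last n, true)]) - v (n + 1) (r ++ [(Fin.last n, false)]) := by
      funext r
      rfl
    rw [f2, e6 B (n + 1) (fun r => v (n + 1) (r ++ [(Fin.last n, true)]))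
      (fun r => v (n + 1) (r ++ [(Fin.last n, false)])), hone (v (n + 1)) true,
      hone (v (n + 1)) false, hstab true, hstab false, sub_self]

end Pool.Agent.H60.LNT
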